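import Pool.Agent.Q81.EX.Stm

/-! Project EX (MP_db815f_an), job SCL. -/

set_option autoImplicit false

namespace Pool.Agent.Q76.EX

open Set MeasureTheory Filter Topology Pool.Agent.Q81.EX

theorem iter_eq {a : ℝ} (ha : 0 < a) (k : ℕ → ℝ → ℝ)
    (hk : ∀ j, j < 4 → ∀ x ∈ Ico (0 : ℝ) a, HasDerivWithinAt (k j) (k (j + 1) x) (Ico 0 a) x) :
    ∀ j, j ≤ 4 → EqOn (iteratedDerivWithin j (k 0) (Ico 0 a)) (k j) (Ico 0 a) := by
  intro j
  induction j with
  | zero =>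
    intro _ x _
    rw [iteratedDerivWithin_zero]
  | succ j ih =>
    intro hj x hx
    rw [iteratedDerivWithin_succ, derivWithin_congr (ih (by omega)) (ih (by omega) hx)]
    exact (hk j (by omega) x hx).derivWithin (uniqueDiffOn_Ico 0 a x hx)

theorem scl : S_SCL := by
  intro lam g0 g1 g2 g3 g4 H
  set a : ℝ := lam ^ (1 / 4 : ℝ) with ha_def
  have ha : 0 < a := Real.rpow_pos_of_pos H.lam_pos _
  have ha4 : a ^ 4 = lam := by
    rw [ha_def, ← Real.rpow_natCast, ← Real.rpow_mul H.lam_pos.le]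
    norm_num
  set k : ℕ → ℝ → ℝ := fun j ξ => match j with
    | 0 => g0 (ξ / a)
    | 1 => g1 (ξ / a) / a
    | 2 => g2 (ξ / a) / a ^ 2
    | 3 => g3 (ξ / a) / a ^ 3
    | _ => g4 (ξ / a) / a ^ 4 with hk_def
  have k0 : ∀ ξ, k 0 ξ = g0 (ξ / a) := fun _ => rfl
  have k1 : ∀ ξ, k 1 ξ = g1 (ξ / a) / a := fun _ => rfl
  have k3 : ∀ ξ, k 3 ξ = g3 (ξ / a) / a ^ 3 := fun _ => rfl
  have k4 : ∀ ξ, k 4 ξ = g4 (ξ / a) / a ^ 4 := fun _ => rfl
  have hmaps : ∀ ξ ∈ Ico (0 : ℝ) a, ξ / a ∈ Ico (0 : ℝ) 1 := by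
    intro ξ hξ
    exact ⟨div_nonneg hξ.1 ha.le, (div_lt_one ha).2 hξ.2⟩
  have hdiv : ∀ ξ : ℝ, HasDerivWithinAt (fun ξ : ℝ => ξ / a) (1 / a) (Ico 0 a) ξ :=
    fun ξ => (hasDerivAt_id ξ).hasDerivWithinAt.div_const a
  have hcomp : ∀ (f f' : ℝ → ℝ), (∀ s ∈ Ico (0 : ℝ) 1, HasDerivWithinAt f (f' s) (Ico 0 1) s) →
      ∀ ξ ∈ Ico (0 : ℝ) a, HasDerivWithinAt (fun ξ => f (ξ / a)) (f' (ξ / a) * (1 / a))
        (Ico 0 a) ξ := by
    intro f f' hf ξ hξ
    exact (hf (ξ / a) (hmaps ξ hξ)).comp ξ (hdiv ξ) hmaps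
  have hk : ∀ j, j < 4 → ∀ x ∈ Ico (0 : ℝ) a,
      HasDerivWithinAt (k j) (k (j + 1) x) (Ico 0 a) x := by
    intro j hj x hx
    interval_cases j
    · have h := hcomp g0 g1 H.d0 x hx
      have e : g1 (x / a) * (1 / a) = g1 (x / a) / a := by ring
      rw [e] at h
      exact h
    · have h := (hcomp g1 g2 H.d1 x hx).div_const a
      have e : g2 (x / a) * (1 / a) / a = g2 (x / a) / a ^ 2 := by field_simp
      rw [e] at h
      exact h
    · have h := (hcomp g2 g3 H.d2 x hx).div_const (a ^ 2)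
      have e : g3 (x / a) * (1 / a) / a ^ 2 = g3 (x / a) / a ^ 3 := by field_simp
      rw [e] at h
      exact h
    · have h := (hcomp g3 g4 H.d3 x hx).div_const (a ^ 3)
      have e : g4 (x / a) * (1 / a) / a ^ 3 = g4 (x / a) / a ^ 4 := by field_simp
      rw [e] at h
      exact h
  have hit := iter_eq ha k hk
  have hd1 : EqOn (derivWithin (k 0) (Ico 0 a)) (k 1) (Ico 0 a) := by
    intro x hx
    exact (hk 0 (by norm_num) x hx).derivWithin (uniqueDiffOn_Ico 0 a x hx)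
  have h0mem : (0 : ℝ) ∈ Ico (0 : ℝ) a := ⟨le_rfl, ha⟩
  have hS : Ico (0 : ℝ) a ∈ 𝓝[<] a := Ico_mem_nhdsLT ha
  have htend : Tendsto (fun ξ : ℝ => ξ / a) (𝓝[<] a) (𝓝[<] 1) := by
    refine tendsto_nhdsWithin_iff.2 ⟨?_, ?_⟩
    · have h : Tendsto (fun ξ : ℝ => ξ / a) (𝓝 a) (𝓝 (a / a)) :=
        (continuous_id.div_const a).tendsto a
      rw [div_self ha.ne'] at h
      exact h.mono_left nhdsWithin_le_nhds
    · filter_upwards [self_mem_nhdsWithin] with ξ hξ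
      exact (div_lt_one ha).2 hξ
  have hprod : EqOn (fun y => k 0 y * iteratedDerivWithin 3 (k 0) (Ico 0 a) y)
      (fun y => k 0 y * k 3 y) (Ico 0 a) := by
    intro y hy
    show k 0 y * iteratedDerivWithin 3 (k 0) (Ico 0 a) y = k 0 y * k 3 y
    rw [hit 3 (by norm_num) hy]
  refine ⟨a, k 0, ⟨ha, ?_, ?_, ?_, ?_, ?_, ?_, ?_, ?_⟩⟩
  · have hC : ContDiffOn ℝ ((4 : ℕ∞) : WithTop ℕ∞) (k 0) (Ico 0 a) := by
      refine contDiffOn_of_continuousOn_differentiableOn_deriv ?_ ?_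
      · intro m hm
        have hm4 : m ≤ 4 := by exact_mod_cast hm
        have hc : ContinuousOn (k m) (Ico 0 a) := by
          rcases Nat.lt_or_ge m 4 with h | h
          · exact fun x hx => (hk m h x hx).continuousWithinAt
          · have hm' : m = 4 := le_antisymm hm4 h
            rw [hm']
            have h5 : ContinuousOn (fun ξ : ℝ => g4 (ξ / a)) (Ico 0 a) :=
              H.c4.comp (continuous_id.div_const a).continuousOn hmaps
            exact h5.div_const _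
        exact hc.congr (hit m hm4)
      · intro m hm
        have hm4 : m < 4 := by exact_mod_cast hm
        have hc : DifferentiableOn ℝ (k m) (Ico 0 a) :=
          fun x hx => (hk m hm4 x hx).differentiableWithinAt
        exact hc.congr (hit m hm4.le)
    exact_mod_cast hC
  · intro ξ hξ
    exact H.pos _ (hmaps ξ hξ)
  · intro ξ hξ
    rw [derivWithin_congr hprod (hprod hξ), hd1 hξ]
    have h1 : HasDerivWithinAt (fun y => k 0 y * k 3 y) (k 1 ξ * k 3 ξ + k 0 ξ * k 4 ξ)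
        (Ico 0 a) ξ := (hk 0 (by norm_num) ξ hξ).mul (hk 3 (by norm_num) ξ hξ)
    rw [h1.derivWithin (uniqueDiffOn_Ico 0 a ξ hξ), k0, k1, k3, k4]
    have h2 := H.ode (ξ / a) (hmaps ξ hξ)
    rw [← ha4] at h2
    have ha0 := ha.ne'
    have h3 : g1 (ξ / a) / a * (g3 (ξ / a) / a ^ 3) + g0 (ξ / a) * (g4 (ξ / a) / a ^ 4) =
        g0 (ξ / a) - 1 - 1 / 2 * (ξ / a) * g1 (ξ / a) := by
      have h4 : g1 (ξ / a) / a * (g3 (ξ / a) / a ^ 3) + g0 (ξ / a) * (g4 (ξ / a) / a ^ 4) =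
          (g1 (ξ / a) * g3 (ξ / a) + g0 (ξ / a) * g4 (ξ / a)) / a ^ 4 := by
        field_simp
      rw [h4, h2, mul_div_cancel_left₀ _ (pow_ne_zero 4 ha0)]
    rw [h3]
    ring
  · rw [hd1 h0mem, k1, zero_div, H.z1, zero_div]
  · rw [hit 3 (by norm_num) h0mem, k3, zero_div, H.z3, zero_div]
  · exact H.e0.comp htend
  · have h1 : Tendsto (k 1) (𝓝[<] a) (𝓝 (0 / a)) := (H.e1.comp htend).div_const a
    rw [zero_div] at h1
    refine h1.congr' ?_
    filter_upwards [hS] with ξ hξ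
    exact (hd1 hξ).symm
  · have h1 : Tendsto (fun y => g0 (y / a) * g3 (y / a) / a ^ 3) (𝓝[<] a) (𝓝 (0 / a ^ 3)) :=
      (H.e3.comp htend).div_const (a ^ 3)
    rw [zero_div] at h1
    refine h1.congr' ?_
    filter_upwards [hS] with ξ hξ
    have h2 := hprod hξ
    simp only at h2
    rw [h2, k0, k3]
    ring

end Pool.Agent.Q76.EX
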